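import Pool.Agent.J6H17.RF.StmN
import Pool.Agent.J6H17.RF.Fin

/-!
# RFN-Q: the reflection sentences of a theory are in the set
-/

set_option autoImplicit false

namespace Pool.Agent.J6H68.RFN.Q

open Pool.Agent.NPC Pool.Agent.H628R3.RO Pool.Agent.J6H17.RF

theorem ax {Γ : Set Fm} {π : List Fm} {φ : Fm} (h : IsProof Γ π) (hφ : φ ∈ Γ) :
    IsProof Γ (φ :: π) := ⟨h, Or.inl hφ⟩

theorem mp {Γ : Set Fm} {π : List Fm} {φ : Fm} (ψ : Fm) (h : IsProof Γ π) (h1 : ψ ∈ π)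
    (h2 : ψ.imp φ ∈ π) : IsProof Γ (φ :: π) := ⟨h, Or.inr (Or.inl ⟨ψ, h1, h2⟩)⟩

/-- the lines from `¬ φ` to `φ → ψ`, without the last one -/
def L1 (φ ψ : Fm) : List Fm :=
  [(φ.imp ψ.neg.neg).imp (φ.imp ψ),
   (φ.imp (ψ.neg.neg.imp ψ)).imp ((φ.imp ψ.neg.neg).imp (φ.imp ψ)),
   φ.imp (ψ.neg.neg.imp ψ),
   (ψ.neg.neg.imp ψ).imp (φ.imp (ψ.neg.neg.imp ψ)),
   ψ.neg.neg.imp ψ,
   φ.imp ψ.neg.neg,
   φ.neg.imp (φ.imp ψ.neg.neg),
   (φ.imp (Fm.bot.imp ψ.neg.neg)).imp (φ.neg.imp (φ.imp ψ.neg.neg)),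
   φ.imp (Fm.bot.imp ψ.neg.neg),
   (Fm.bot.imp ψ.neg.neg).imp (φ.imp (Fm.bot.imp ψ.neg.neg)),
   Fm.bot.imp ψ.neg.neg]

theorem proof1 {Γ : Set Fm} (hΓ : ∀ φ, LogAx φ → φ ∈ Γ) (φ ψ : Fm) {π : List Fm}
    (h : IsProof Γ (φ.neg :: π)) : IsProof Γ (φ.imp ψ :: (L1 φ ψ ++ (φ.neg :: π))) := by
  have h1 : IsProof Γ (Fm.bot.imp ψ.neg.neg :: φ.neg :: π) := ax h (hΓ _ (LogAx.k Fm.bot ψ.neg))
  have h2 := ax h1 (hΓ _ (LogAx.k (Fm.bot.imp ψ.neg.neg) φ))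
  have h3 := mp (φ := φ.imp (Fm.bot.imp ψ.neg.neg)) (Fm.bot.imp ψ.neg.neg) h2 (by simp) (by simp)
  have h4 := ax (φ := (φ.imp (Fm.bot.imp ψ.neg.neg)).imp (φ.neg.imp (φ.imp ψ.neg.neg))) h3
    (hΓ _ (LogAx.s φ Fm.bot ψ.neg.neg))
  have h5 := mp (φ := φ.neg.imp (φ.imp ψ.neg.neg)) (φ.imp (Fm.bot.imp ψ.neg.neg)) h4 (by simp)
    (by simp)
  have h6 := mp (φ := φ.imp ψ.neg.neg) φ.neg h5 (by simp) (by simp)
  have h7 := ax (φ := ψ.neg.neg.imp ψ) h6 (hΓ _ (LogAx.dn ψ))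
  have h8 := ax (φ := (ψ.neg.neg.imp ψ).imp (φ.imp (ψ.neg.neg.imp ψ))) h7
    (hΓ _ (LogAx.k (ψ.neg.neg.imp ψ) φ))
  have h9 := mp (φ := φ.imp (ψ.neg.neg.imp ψ)) (ψ.neg.neg.imp ψ) h8 (by simp) (by simp)
  have h10 := ax (φ := (φ.imp (ψ.neg.neg.imp ψ)).imp ((φ.imp ψ.neg.neg).imp (φ.imp ψ))) h9
    (hΓ _ (LogAx.s φ ψ.neg.neg ψ))
  have h11 := mp (φ := (φ.imp ψ.neg.neg).imp (φ.imp ψ)) (φ.imp (ψ.neg.neg.imp ψ)) h10 (by simp)
    (by simp)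
  have h12 := mp (φ := φ.imp ψ) (φ.imp ψ.neg.neg) h11 (by simp) (by simp)
  exact h12

theorem proof2 {Γ : Set Fm} (hΓ : ∀ φ, LogAx φ → φ ∈ Γ) (φ ψ : Fm) {π : List Fm}
    (h : IsProof Γ (ψ :: π)) : IsProof Γ (φ.imp ψ :: ([ψ.imp (φ.imp ψ)] ++ (ψ :: π))) := by
  have h1 := ax h (hΓ _ (LogAx.k ψ φ))
  exact mp (φ := φ.imp ψ) ψ h1 (by simp) (by simp)

section

variable (hN : S_NUM) (hSP : S_SPOLY)

include hSP in
theorem poly_L1 {α : Type} [TEnc α] {f g : α → Fm} (hf : Poly f) (hg : Poly g) :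
    Poly (fun a => (f a).imp (g a) :: L1 (f a) (g a)) := by
  have hi : ∀ (f g : α → Fm), Poly f → Poly g → Poly (fun a => (f a).imp (g a)) := hSP.2.1 α
  have hb : Poly (fun _ : α => Fm.bot) := NPC.Poly.const _
  have hfn : Poly (fun a => (f a).neg) := hi _ _ hf hb
  have hgn : Poly (fun a => (g a).neg) := hi _ _ hg hb
  have hgnn : Poly (fun a => (g a).neg.neg) := hi _ _ hgn hb
  have a1 : Poly (fun a => Fm.bot.imp (g a).neg.neg) := hi _ _ hb hgnn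
  have a3 : Poly (fun a => (f a).imp (Fm.bot.imp (g a).neg.neg)) := hi _ _ hf a1
  have a6 : Poly (fun a => (f a).imp (g a).neg.neg) := hi _ _ hf hgnn
  have a5 : Poly (fun a => (f a).neg.imp ((f a).imp (g a).neg.neg)) := hi _ _ hfn a6
  have a7 : Poly (fun a => (g a).neg.neg.imp (g a)) := hi _ _ hgnn hg
  have a9 : Poly (fun a => (f a).imp ((g a).neg.neg.imp (g a))) := hi _ _ hf a7
  have a12 : Poly (fun a => (f a).imp (g a)) := hi _ _ hf hg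
  have a11 : Poly (fun a => ((f a).imp (g a).neg.neg).imp ((f a).imp (g a))) := hi _ _ a6 a12
  exact Poly.cons a12 (Poly.cons a11 (Poly.cons (hi _ _ a9 a11) (Poly.cons a9
    (Poly.cons (hi _ _ a7 a9) (Poly.cons a7 (Poly.cons a6 (Poly.cons a5
    (Poly.cons (hi _ _ a3 a5) (Poly.cons a3 (Poly.cons (hi _ _ a1 a3) (Poly.cons a1
    (NPC.Poly.const []))))))))))))

include hSP in
theorem poly_L2 {α : Type} [TEnc α] {f g : α → Fm} (hf : Poly f) (hg : Poly g) :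
    Poly (fun a => (f a).imp (g a) :: [(g a).imp ((f a).imp (g a))]) := by
  have hi : ∀ (f g : α → Fm), Poly f → Poly g → Poly (fun a => (f a).imp (g a)) := hSP.2.1 α
  have a12 : Poly (fun a => (f a).imp (g a)) := hi _ _ hf hg
  exact Poly.cons a12 (Poly.cons (hi _ _ hg a12) (NPC.Poly.const []))

include hN hSP in
theorem poly_in4 (φ : Fm) {α : Type} [TEnc α] {e u x z : α → ℕ} (he : Poly e) (hu : Poly u)
    (hx : Poly x) (hz : Poly z) : Poly (fun a => in4 φ (e a) (u a) (x a) (z a)) := by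
  have hi : ∀ (f g : α → Fm), Poly f → Poly g → Poly (fun a => (f a).imp (g a)) := hSP.2.1 α
  have ha : ∀ (f : α → Fm) (x : ℕ), Poly f → Poly (fun a => Fm.all x (f a)) := hSP.2.2.1 α
  have hq : ∀ (i : ℕ) (m : α → ℕ), Poly m → Poly (fun a => Fm.eq (.var i) (num (m a))) :=
    fun i m hm => hSP.2.2.2.1 α (fun _ => Tm.var i) (fun a => num (m a)) (NPC.Poly.const _)
      (hN.1.comp hm)
  exact ha _ 0 (hi _ _ (hq 0 e he) (ha _ 1 (hi _ _ (hq 1 u hu) (ha _ 2 (hi _ _ (hq 2 x hx)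
    (ha _ 3 (hi _ _ (hq 3 z hz) (NPC.Poly.const φ))))))))

end

theorem sz_args {n e u x z : ℕ} (he : e.size ≤ n) (hu : u.size ≤ n) (hx : x.size ≤ n)
    (hz : z.size ≤ n) : sz (e, u, x, z) ≤ 16 * n + 7 := by
  have h1 := sz_nat_le e
  have h2 := sz_nat_le u
  have h3 := sz_nat_le x
  have h4 := sz_nat_le z
  rw [sz_pair, sz_pair, sz_pair]
  omega

theorem main (h1 : S_NUM) (h2 : S_SPOLY) (h3 : S_LOG) : S_NQ := by
  intro A B μ hB T hT hBT hcT Pr hPr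
  obtain ⟨p, hp⟩ := hPr.short
  obtain ⟨p', hp'⟩ := hB.short
  have b1 : Poly (fun a : ℕ × ℕ × ℕ × ℕ => a.1) := Poly.fst Poly.id
  have b2 : Poly (fun a : ℕ × ℕ × ℕ × ℕ => a.2.1) := Poly.fst (Poly.snd Poly.id)
  have b3 : Poly (fun a : ℕ × ℕ × ℕ × ℕ => a.2.2.1) := Poly.fst (Poly.snd (Poly.snd Poly.id))
  have b4 : Poly (fun a : ℕ × ℕ × ℕ × ℕ => a.2.2.2) := Poly.snd (Poly.snd (Poly.snd Poly.id))
  have hf := poly_in4 h1 h2 Pr b1 b2 b3 b4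
  have hg := poly_at3 h1 h2 μ b1 b3 b4
  obtain ⟨r1, hr1⟩ := (poly_L1 h2 hf hg).sz_le
  obtain ⟨r2, hr2⟩ := (poly_L2 h2 hf hg).sz_le
  refine ⟨(r1.comp (Polynomial.C 16 * Polynomial.X + Polynomial.C 7) +
    p.comp (Polynomial.C 4 * Polynomial.X)) +
    (r2.comp (Polynomial.C 16 * Polynomial.X + Polynomial.C 7) +
    p'.comp (Polynomial.C 3 * Polynomial.X)), fun n => ⟨Pr, n, _, rfl, ?_⟩⟩
  intro e u x z he hu hx hz
  simp only [Polynomial.eval_add, Polynomial.eval_comp, Polynomial.eval_mul, Polynomial.eval_C,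
    Polynomial.eval_X]
  have hsz := sz_args he hu hx hz
  by_cases hr : PrRel μ T e u x z
  · have hpr : Proves B (at3 μ e x z) := by
      rcases hB.decides e x z with h6 | ⟨ρ, hρ⟩
      · exact h6
      · exfalso
        obtain ⟨π, hπ, -⟩ := hr
        exact hcT ⟨_, h3.2.1 T _ _ _ _ (h3.2.2.1 B T _ hBT hρ) hπ⟩
    obtain ⟨π, hπ, hlen⟩ := hp' e x z hpr
    refine ⟨_, proof2 hB.theory.1 (in4 Pr e u x z) _ hπ, ?_⟩
    rw [bits_length] at hlen ⊢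
    have k1 := sz_append ((in4 Pr e u x z).imp (at3 μ e x z) ::
      [(at3 μ e x z).imp ((in4 Pr e u x z).imp (at3 μ e x z))]) (at3 μ e x z :: π)
    have k2 := (hr2 (e, u, x, z)).trans (eval_mono r2 hsz)
    have k3 := hlen.trans (eval_mono p' (show e.size + x.size + z.size ≤ 3 * n by omega))
    rw [List.cons_append] at k1
    simp only at k2
    omega
  · obtain ⟨π, hπ, hlen⟩ := hp e u x z hr
    refine ⟨_, proof1 hB.theory.1 (in4 Pr e u x z) (at3 μ e x z) hπ, ?_⟩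
    rw [bits_length] at hlen ⊢
    have k1 := sz_append ((in4 Pr e u x z).imp (at3 μ e x z) ::
      L1 (in4 Pr e u x z) (at3 μ e x z)) ((in4 Pr e u x z).neg :: π)
    have k2 := (hr1 (e, u, x, z)).trans (eval_mono r1 hsz)
    have k3 := hlen.trans (eval_mono p (show e.size + u.size + x.size + z.size ≤ 4 * n by omega))
    rw [List.cons_append] at k1
    simp only at k2
    omega

end Pool.Agent.J6H68.RFN.Q
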